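import Mathlib.Algebra.Group.End
import Mathlib.Order.Lattice.Nat
import Mathlib.Data.Nat.Dist

/-!
Neighbor separated permutations.  A permutation `σ` of `Fin n` is read as the sequence
`σ 0, σ 1, …`, so that `σ.symm x` is the position of the element `x`.
-/

namespace Pool.Agent.MP_d5d631_co

/-- The distance between the positions of the elements `x` and `y` in the sequence `σ`. -/
def posDist {n : ℕ} (σ : Equiv.Perm (Fin n)) (x y : Fin n) : ℕ :=
  Nat.dist (σ.symm x : ℕ) (σ.symm y : ℕ)

/-- `σ` and `τ` are `k`-neighbor separated: two elements are adjacent in one of them and have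
positions differing by exactly `k - 1` in the other. -/
def Separated {n : ℕ} (k : ℕ) (σ τ : Equiv.Perm (Fin n)) : Prop :=
  ∃ x y : Fin n, (posDist σ x y = 1 ∧ posDist τ x y = k - 1) ∨
    (posDist τ x y = 1 ∧ posDist σ x y = k - 1)

/-- `P n k` is the largest size of a family of pairwise `k`-neighbor separated permutations
of an `n`-element set. -/
noncomputable def P (n k : ℕ) : ℕ :=
  sSup {N : ℕ | ∃ F : Finset (Equiv.Perm (Fin n)),
    (F : Set (Equiv.Perm (Fin n))).Pairwise (Separated k) ∧ F.card = N}

end Pool.Agent.MP_d5d631_co
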