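import Mathlib.Data.Fintype.Perm
import Mathlib.Algebra.Order.Ring.Star
import Mathlib.Analysis.SpecialFunctions.Pow.Real
import Mathlib.Analysis.Subadditive
import Mathlib.Tactic.Algebra.Basic
import Pool.Agent.MP_d5d631_co.Defs

-- ======== part 0: formerly Pool.Agent.MP_d5d631_co.Ladder
section MrgPart0

/-!
Ladders: a ladder with `m` columns on a set `V` is a bijection `Fin m × Bool ≃ V`.
-/

namespace Pool.Agent.MP_d5d631_co

open Function

/-- A rail of `e` is a rung of `e'`. -/
def RailRung {m : ℕ} {V : Type} (e e' : Fin m × Bool ≃ V) : Prop :=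
  ∃ (i j l : Fin m) (s t : Bool), (j : ℕ) = i + 1 ∧ e (i, s) = e' (l, t) ∧ e (j, s) = e' (l, !t)

/-- Separated ladders. -/
def LSep {m : ℕ} {V : Type} (e e' : Fin m × Bool ≃ V) : Prop :=
  RailRung e e' ∨ RailRung e' e

/-- There are `N` pairwise separated ladders with `m` columns on a common vertex set. -/
def Has (m N : ℕ) : Prop :=
  ∃ (V : Type) (f : Fin N → (Fin m × Bool ≃ V)), Pairwise (LSep on f)

lemma has_of {m : ℕ} {V ι : Type} [Fintype ι] (f : ι → (Fin m × Bool ≃ V))
    (hf : Pairwise (LSep on f)) : Has m (Fintype.card ι) :=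
  ⟨V, f ∘ (Fintype.equivFin ι).symm, fun _ _ h =>
    hf ((Fintype.equivFin ι).symm.injective.ne h)⟩

lemma has_le {m N : ℕ} (h : Has m N) : N ≤ 4 ^ m := by
  classical
  obtain ⟨V, f, hf⟩ := h
  rcases Nat.eq_zero_or_pos N with rfl | hN
  · exact Nat.zero_le _
  let e₀ := f ⟨0, hN⟩
  let c : Fin N → (Fin m × Bool → Bool) := fun a x => ((f a).symm (e₀ x)).2
  have key : ∀ a b, c a = c b → ¬ RailRung (f a) (f b) := by
    rintro a b hab ⟨i, j, l, s, t, -, h1, h2⟩
    have g1 := congrFun hab (e₀.symm (f a (i, s)))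
    have g2 := congrFun hab (e₀.symm (f a (j, s)))
    simp only [c, Equiv.apply_symm_apply, Equiv.symm_apply_apply] at g1 g2
    rw [h1] at g1
    rw [h2] at g2
    simp only [Equiv.symm_apply_apply] at g1 g2
    rw [g1] at g2
    cases t <;> simp at g2
  have hc : Injective c := by
    intro a b hab
    by_contra hne
    rcases hf hne with h | h
    · exact key a b hab h
    · exact key b a hab.symm h
  have := Fintype.card_le_of_injective c hc
  simp only [Fintype.card_fin, Fintype.card_fun, Fintype.card_bool, Fintype.card_prod] at this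
  calc N ≤ 2 ^ (m * 2) := this
    _ = 4 ^ m := by rw [mul_comm, pow_mul]; norm_num

/-- Splitting the positions of a ladder with `m + m'` columns. -/
def splitPos (m m' : ℕ) : Fin (m + m') × Bool ≃ (Fin m × Bool) ⊕ (Fin m' × Bool) :=
  (Equiv.prodCongr finSumFinEquiv.symm (Equiv.refl Bool)).trans (Equiv.sumProdDistrib _ _ _)

lemma splitPos_left (m m' : ℕ) (i : Fin m) (s : Bool) :
    splitPos m m' (Fin.castAdd m' i, s) = Sum.inl (i, s) := by
  simp [splitPos]

lemma splitPos_right (m m' : ℕ) (i : Fin m') (s : Bool) :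
    splitPos m m' (Fin.natAdd m i, s) = Sum.inr (i, s) := by
  simp [splitPos]

/-- Concatenation of two ladders. -/
def concat {m m' : ℕ} {V V' : Type} (e : Fin m × Bool ≃ V) (e' : Fin m' × Bool ≃ V') :
    Fin (m + m') × Bool ≃ V ⊕ V' :=
  (splitPos m m').trans (Equiv.sumCongr e e')

lemma railRung_left {m m' : ℕ} {V V' : Type} {e d : Fin m × Bool ≃ V}
    (e' d' : Fin m' × Bool ≃ V') (h : RailRung e d) : RailRung (concat e e') (concat d d') := by
  obtain ⟨i, j, l, s, t, hij, h1, h2⟩ := h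
  refine ⟨Fin.castAdd m' i, Fin.castAdd m' j, Fin.castAdd m' l, s, t, by simpa using hij, ?_, ?_⟩
  · simp [concat, splitPos_left, h1]
  · simp [concat, splitPos_left, h2]

lemma railRung_right {m m' : ℕ} {V V' : Type} (e d : Fin m × Bool ≃ V)
    {e' d' : Fin m' × Bool ≃ V'} (h : RailRung e' d') : RailRung (concat e e') (concat d d') := by
  obtain ⟨i, j, l, s, t, hij, h1, h2⟩ := h
  refine ⟨Fin.natAdd m i, Fin.natAdd m j, Fin.natAdd m l, s, t, by simp [hij, add_assoc], ?_, ?_⟩
  · simp [concat, splitPos_right, h1]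
  · simp [concat, splitPos_right, h2]

lemma has_mul {m m' N N' : ℕ} (h : Has m N) (h' : Has m' N') : Has (m + m') (N * N') := by
  obtain ⟨V, f, hf⟩ := h
  obtain ⟨V', f', hf'⟩ := h'
  have := has_of (fun p : Fin N × Fin N' => concat (f p.1) (f' p.2)) (by
    rintro ⟨a, a'⟩ ⟨b, b'⟩ hne
    by_cases hab : a = b
    · subst hab
      have : a' ≠ b' := fun h => hne (by rw [h])
      rcases hf' this with h | h
      · exact Or.inl (railRung_right _ _ h)
      · exact Or.inr (railRung_right _ _ h)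
    · rcases hf hab with h | h
      · exact Or.inl (railRung_left _ _ h)
      · exact Or.inr (railRung_left _ _ h))
  simpa using this

lemma has_one (m : ℕ) : Has m 1 :=
  ⟨Fin m × Bool, fun _ => Equiv.refl _, Subsingleton.pairwise⟩

/-- The largest number of pairwise separated ladders with `m` columns. -/
noncomputable def A (m : ℕ) : ℕ := sSup {N | Has m N}

lemma bdd_has (m : ℕ) : BddAbove {N | Has m N} := ⟨4 ^ m, fun _ h => has_le h⟩

lemma has_A (m : ℕ) : Has m (A m) := Nat.sSup_mem ⟨1, has_one m⟩ (bdd_has m)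

lemma le_A {m N : ℕ} (h : Has m N) : N ≤ A m := le_csSup (bdd_has m) h

lemma one_le_A (m : ℕ) : 1 ≤ A m := le_A (has_one m)

lemma A_le (m : ℕ) : A m ≤ 4 ^ m := has_le (has_A m)

lemma A_mul (m m' : ℕ) : A m * A m' ≤ A (m + m') := le_A (has_mul (has_A m) (has_A m'))

/-! The staircase construction. -/

/-- The three candidates at step `j`, when the vertex carried over is `c`. -/
def cand (c j : ℕ) (i : Fin 3) : ℕ := ![c, 2 * j + 2, 2 * j + 3] i

/-- The vertex carried over to step `j`. -/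
def carry (w : ℕ → Fin 3) : ℕ → ℕ
  | 0 => 1
  | j + 1 => cand (carry w j) j (w j + 2)

/-- The top row. -/
def top (w : ℕ → Fin 3) : ℕ → ℕ
  | 0 => 0
  | j + 1 => cand (carry w j) j (w j + 1)

/-- The bottom row. -/
def bot (w : ℕ → Fin 3) (j : ℕ) : ℕ := cand (carry w j) j (w j)

lemma stair_inv (w : ℕ → Fin 3) (j : ℕ) :
    carry w j < 2 * j + 2 ∧ (∀ i ≤ j, top w i < 2 * j + 2 ∧ top w i ≠ carry w j) ∧
    (∀ i < j, bot w i < 2 * j + 2 ∧ bot w i ≠ carry w j) ∧
    (∀ i ≤ j, ∀ i' < i, top w i ≠ top w i') ∧ (∀ i < j, ∀ i' < i, bot w i ≠ bot w i') ∧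
    (∀ i ≤ j, ∀ i' < j, top w i ≠ bot w i') := by
  induction j with
  | zero => simp [carry, top]
  | succ j ih =>
    obtain ⟨h1, h2, h3, h4, h5, h6⟩ := ih
    have hc : (carry w (j + 1) = 2 * j + 3 ∧ top w (j + 1) = 2 * j + 2 ∧ bot w j = carry w j) ∨
        (carry w (j + 1) = carry w j ∧ top w (j + 1) = 2 * j + 3 ∧ bot w j = 2 * j + 2) ∨
        (carry w (j + 1) = 2 * j + 2 ∧ top w (j + 1) = carry w j ∧ bot w j = 2 * j + 3) := by
      simp only [carry, top, bot]
      generalize w j = a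
      fin_cases a <;> simp [cand]
    refine ⟨by omega, ?_, ?_, ?_, ?_, ?_⟩
    · intro i hi
      rcases Nat.lt_or_eq_of_le hi with hi | rfl
      · have := h2 i (by omega); omega
      · omega
    · intro i hi
      rcases Nat.lt_or_eq_of_le (Nat.lt_succ_iff.1 hi) with hi | rfl
      · have := h3 i hi; omega
      · omega
    · intro i hi i' hi'
      rcases Nat.lt_or_eq_of_le hi with hi | rfl
      · exact h4 i (by omega) i' hi'
      · have := h2 i' (by omega); omega
    · intro i hi i' hi'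
      rcases Nat.lt_or_eq_of_le (Nat.lt_succ_iff.1 hi) with hi | rfl
      · exact h5 i hi i' hi'
      · have := h3 i' hi'; omega
    · intro i hi i' hi'
      rcases Nat.lt_or_eq_of_le hi with hi | rfl
      · rcases Nat.lt_or_eq_of_le (Nat.lt_succ_iff.1 hi') with hi' | rfl
        · exact h6 i (by omega) i' hi'
        · have := h2 i (by omega); omega
      · rcases Nat.lt_or_eq_of_le (Nat.lt_succ_iff.1 hi') with hi' | rfl
        · have := h3 i' hi'; omega
        · omega

/-- The vertex at a position of the staircase ladder with `m + 1` columns. -/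
def stairFun (m : ℕ) (w : ℕ → Fin 3) (p : Fin (m + 1) × Bool) : Fin (2 * m + 2) :=
  ⟨if p.2 then top w p.1 else if (p.1 : ℕ) < m then bot w p.1 else carry w m, by
    obtain ⟨h1, h2, h3, -⟩ := stair_inv w m
    have := p.1.2
    split_ifs with ha hb
    · exact (h2 _ (by omega)).1
    · exact (h3 _ hb).1
    · exact h1⟩

lemma stairFun_bijective (m : ℕ) (w : ℕ → Fin 3) : Bijective (stairFun m w) := by
  rw [Fintype.bijective_iff_injective_and_card]
  refine ⟨?_, by simp; ring⟩
  obtain ⟨h1, h2, h3, h4, h5, h6⟩ := stair_inv w m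
  rintro ⟨i, s⟩ ⟨j, t⟩ h
  have hi := i.2
  have hj := j.2
  have h' := congrArg Fin.val h
  simp only [stairFun] at h'
  cases s <;> cases t <;> simp only [Bool.false_eq_true, if_false, if_true] at h'
  · have : (i : ℕ) = j := by
      split_ifs at h' with ha hb hb
      · by_contra hne
        rcases Nat.lt_or_gt_of_ne hne with hlt | hlt
        · exact h5 j hb i hlt h'.symm
        · exact h5 i ha j hlt h'
      · exact absurd h' (h3 i ha).2
      · exact absurd h'.symm (h3 j hb).2
      · omega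
    rw [Fin.ext this]
  · exfalso
    split_ifs at h' with ha
    · exact h6 j (by omega) i ha h'.symm
    · exact (h2 j (by omega)).2 h'.symm
  · exfalso
    split_ifs at h' with ha
    · exact h6 i (by omega) j ha h'
    · exact (h2 i (by omega)).2 h'
  · have : (i : ℕ) = j := by
      by_contra hne
      rcases Nat.lt_or_gt_of_ne hne with hlt | hlt
      · exact h4 j (by omega) i hlt h'.symm
      · exact h4 i (by omega) j hlt h'
    rw [Fin.ext this]

/-- The staircase ladder of the word `w`. -/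
noncomputable def stair (m : ℕ) (w : ℕ → Fin 3) : Fin (m + 1) × Bool ≃ Fin (2 * m + 2) :=
  Equiv.ofBijective _ (stairFun_bijective m w)

lemma agree {w w' : ℕ → Fin 3} (j : ℕ) (h : ∀ i < j, w i = w' i) :
    carry w j = carry w' j ∧ top w j = top w' j := by
  induction j with
  | zero => simp [carry, top]
  | succ j ih =>
    have := (ih fun i hi => h i (by omega)).1
    simp [carry, top, this, h j (by omega)]

lemma railRung_stair (m : ℕ) {w w' : ℕ → Fin 3} {j : ℕ} (hj : j < m) (h : ∀ i < j, w i = w' i)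
    (hw : w' j = w j + 1) : RailRung (stair m w) (stair m w') := by
  obtain ⟨h1, h2⟩ := agree j h
  refine ⟨⟨j, by omega⟩, ⟨j + 1, by omega⟩, ⟨j, by omega⟩, true, true, rfl, ?_, ?_⟩
  · apply Fin.ext
    simp [stair, stairFun, h2]
  · apply Fin.ext
    simp [stair, stairFun, hj, top, bot, h1, hw]

lemma has_three_pow (m : ℕ) : Has (m + 1) (3 ^ m) := by
  classical
  let ext : (Fin m → Fin 3) → ℕ → Fin 3 := fun u i => if h : i < m then u ⟨i, h⟩ else 0
  have := has_of (fun u : Fin m → Fin 3 => stair m (ext u)) (by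
    intro u u' hne
    have hex : ∃ j, ext u j ≠ ext u' j := by
      obtain ⟨i, hi⟩ := Function.ne_iff.1 hne
      exact ⟨i, by simpa [ext, i.2] using hi⟩
    have hj := Nat.find_spec hex
    have hlt : ∀ i < Nat.find hex, ext u i = ext u' i := fun i hi =>
      not_not.1 (Nat.find_min hex hi)
    have hjm : Nat.find hex < m := by
      by_contra hc
      exact hj (by simp [ext, hc])
    have h3 : ∀ a b : Fin 3, a ≠ b → b = a + 1 ∨ a = b + 1 := by decide
    rcases h3 _ _ hj with h | h
    · exact Or.inl (railRung_stair m hjm hlt h)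
    · exact Or.inr (railRung_stair m hjm (fun i hi => (hlt i hi).symm) h))
  simpa using this

lemma three_pow_le_A (m : ℕ) : 3 ^ m ≤ A (m + 1) := le_A (has_three_pow m)

end Pool.Agent.MP_d5d631_co

end MrgPart0

-- ======== part 1: formerly Pool.Agent.MP_d5d631_co.Main
section MrgPart1

namespace Pool.Agent.MP_d5d631_co

open Function Filter Topology

/-- The position in the sequence of a cell of the ladder. -/
def pos (m : ℕ) : Fin m × Bool ≃ Fin (2 * m) :=
  (Equiv.prodComm _ _).trans
    ((Equiv.prodCongr finTwoEquiv.symm (Equiv.refl (Fin m))).trans finProdFinEquiv)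

lemma pos_val (m : ℕ) (i : Fin m) (s : Bool) :
    (pos m (i, s) : ℕ) = i + if s then m else 0 := by
  cases s <;> simp [pos, finProdFinEquiv, finTwoEquiv]

lemma not_railRung_self {m : ℕ} {V : Type} (e : Fin m × Bool ≃ V) : ¬ RailRung e e := by
  rintro ⟨i, j, l, s, t, -, h1, h2⟩
  have g1 := congrArg Prod.snd (e.injective h1)
  have g2 := congrArg Prod.snd (e.injective h2)
  simp only at g1 g2
  rw [g1] at g2
  cases t <;> simp at g2

lemma bdd_P (n k : ℕ) : BddAbove {N : ℕ | ∃ F : Finset (Equiv.Perm (Fin n)),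
    (F : Set (Equiv.Perm (Fin n))).Pairwise (Separated k) ∧ F.card = N} :=
  ⟨Fintype.card (Equiv.Perm (Fin n)), by
    rintro _ ⟨F, -, rfl⟩
    exact F.card_le_univ⟩

lemma dist_of_railRung {m : ℕ} {σ τ : Equiv.Perm (Fin (2 * m))}
    (h : RailRung ((pos m).trans σ) ((pos m).trans τ)) :
    ∃ x y, posDist σ x y = 1 ∧ posDist τ x y = m + 1 - 1 := by
  obtain ⟨i, j, l, s, t, hij, h1, h2⟩ := h
  simp only [Equiv.trans_apply] at h1 h2
  refine ⟨σ (pos m (i, s)), σ (pos m (j, s)), ?_, ?_⟩
  · simp only [posDist, Equiv.symm_apply_apply, pos_val, Nat.dist]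
    omega
  · rw [h1, h2]
    simp only [posDist, Equiv.symm_apply_apply, pos_val, Nat.dist]
    cases t <;> simp

lemma A_le_P (m : ℕ) : A m ≤ P (2 * m) (m + 1) := by
  classical
  obtain ⟨V, f, hf⟩ := has_A m
  let g : V ≃ Fin (2 * m) := (f ⟨0, one_le_A m⟩).symm.trans (pos m)
  let σ : Fin (A m) → Equiv.Perm (Fin (2 * m)) := fun a => (pos m).symm.trans ((f a).trans g)
  have hr : ∀ a b, RailRung (f a) (f b) →
      RailRung ((pos m).trans (σ a)) ((pos m).trans (σ b)) := by
    rintro a b ⟨i, j, l, s, t, hij, h1, h2⟩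
    exact ⟨i, j, l, s, t, hij, by simp [σ, h1], by simp [σ, h2]⟩
  have hinj : Injective σ := by
    intro a b hab
    by_contra hne
    rcases hf hne with h | h
    · have := hr _ _ h
      rw [hab] at this
      exact not_railRung_self _ this
    · have := hr _ _ h
      rw [hab] at this
      exact not_railRung_self _ this
  refine le_csSup (bdd_P _ _) ⟨Finset.univ.image σ, ?_, ?_⟩
  · intro x hx y hy hne
    simp only [Finset.coe_image, Finset.coe_univ, Set.image_univ, Set.mem_range] at hx hy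
    obtain ⟨a, rfl⟩ := hx
    obtain ⟨b, rfl⟩ := hy
    have hab : a ≠ b := fun h => hne (by rw [h])
    rcases hf hab with h | h
    · obtain ⟨x, y, hxy⟩ := dist_of_railRung (hr _ _ h)
      exact ⟨x, y, Or.inl hxy⟩
    · obtain ⟨x, y, hxy⟩ := dist_of_railRung (hr _ _ h)
      exact ⟨x, y, Or.inr hxy⟩
  · rw [Finset.card_image_of_injective _ hinj]
    simp

lemma railRung_of_dist_aux {m : ℕ} (hm : 2 ≤ m) {σ τ : Equiv.Perm (Fin (2 * m))}
    (h1 : σ ⟨m - 1, by omega⟩ = τ ⟨m - 1, by omega⟩) (h2 : σ ⟨m, by omega⟩ = τ ⟨m, by omega⟩)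
    {x y : Fin (2 * m)} (hσ : (σ.symm y : ℕ) = σ.symm x + 1) (hτ : posDist τ x y = m) :
    RailRung ((pos m).trans σ) ((pos m).trans τ) := by
  have hy := (σ.symm y).2
  have hx' := (τ.symm x).2
  have hy' := (τ.symm y).2
  have hne : (σ.symm y : ℕ) ≠ m := by
    intro h
    have e1 : σ.symm x = ⟨m - 1, by omega⟩ := Fin.ext (by simp only; omega)
    have e2 : σ.symm y = ⟨m, by omega⟩ := Fin.ext h
    have f1 : τ.symm x = ⟨m - 1, by omega⟩ := by
      rw [Equiv.symm_apply_eq, ← h1, ← e1, Equiv.apply_symm_apply]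
    have f2 : τ.symm y = ⟨m, by omega⟩ := by
      rw [Equiv.symm_apply_eq, ← h2, ← e2, Equiv.apply_symm_apply]
    simp only [posDist, f1, f2, Nat.dist] at hτ
    omega
  simp only [posDist, Nat.dist] at hτ
  have key : ∀ (ρ : Equiv.Perm (Fin (2 * m))) (z : Fin (2 * m)) (i : Fin m) (s : Bool),
      (ρ.symm z : ℕ) = i + (if s then m else 0) → ((pos m).trans ρ) (i, s) = z := by
    intro ρ z i s h
    rw [Equiv.trans_apply, ← Equiv.eq_symm_apply]
    exact Fin.ext (by rw [pos_val, h])
  obtain ⟨i, j, s, hij, hi, hj⟩ : ∃ (i j : Fin m) (s : Bool), (j : ℕ) = i + 1 ∧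
      ((pos m).trans σ) (i, s) = x ∧ ((pos m).trans σ) (j, s) = y := by
    by_cases h : (σ.symm y : ℕ) < m
    · exact ⟨⟨σ.symm x, by omega⟩, ⟨σ.symm y, h⟩, false, hσ, key _ _ _ _ (by simp),
        key _ _ _ _ (by simp)⟩
    · refine ⟨⟨σ.symm x - m, by omega⟩, ⟨σ.symm y - m, by omega⟩, true, by simp only; omega,
        key _ _ _ _ ?_, key _ _ _ _ ?_⟩
      · simp only [if_true]; omega
      · simp only [if_true]; omega
  obtain ⟨l, t, hl, hl'⟩ : ∃ (l : Fin m) (t : Bool),
      ((pos m).trans τ) (l, t) = x ∧ ((pos m).trans τ) (l, !t) = y := by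
    by_cases h : (τ.symm x : ℕ) < m
    · refine ⟨⟨τ.symm x, h⟩, false, key _ _ _ _ (by simp), key _ _ _ _ ?_⟩
      simp only [Bool.not_false, if_true]; omega
    · refine ⟨⟨τ.symm y, by omega⟩, true, key _ _ _ _ ?_, key _ _ _ _ (by simp)⟩
      simp only [if_true]; omega
  exact ⟨i, j, l, s, t, hij, hi.trans hl.symm, hj.trans hl'.symm⟩

lemma railRung_of_dist {m : ℕ} (hm : 2 ≤ m) {σ τ : Equiv.Perm (Fin (2 * m))}
    (h1 : σ ⟨m - 1, by omega⟩ = τ ⟨m - 1, by omega⟩) (h2 : σ ⟨m, by omega⟩ = τ ⟨m, by omega⟩)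
    {x y : Fin (2 * m)} (hσ : posDist σ x y = 1) (hτ : posDist τ x y = m + 1 - 1) :
    RailRung ((pos m).trans σ) ((pos m).trans τ) := by
  rw [Nat.add_sub_cancel] at hτ
  simp only [posDist, Nat.dist] at hσ
  by_cases h : (σ.symm y : ℕ) = σ.symm x + 1
  · exact railRung_of_dist_aux hm h1 h2 h hτ
  · refine railRung_of_dist_aux hm h1 h2 (x := y) (y := x) (by omega) ?_
    exact (Nat.dist_comm _ _).trans hτ

lemma P_le (m : ℕ) (hm : 2 ≤ m) : P (2 * m) (m + 1) ≤ A m * (2 * m) ^ 2 := by
  classical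
  refine csSup_le ⟨0, ∅, by simp, rfl⟩ ?_
  rintro _ ⟨F, hF, rfl⟩
  let φ : Equiv.Perm (Fin (2 * m)) → Fin (2 * m) × Fin (2 * m) :=
    fun σ => (σ ⟨m - 1, by omega⟩, σ ⟨m, by omega⟩)
  refine (Finset.card_le_mul_card_image (f := φ) F (A m) ?_).trans ?_
  · intro c _
    have := has_of (fun σ : {σ // σ ∈ F.filter (fun σ => φ σ = c)} => (pos m).trans σ.1) (by
      rintro ⟨σ, hσ⟩ ⟨τ, hτ⟩ hne
      rw [Finset.mem_filter] at hσ hτ
      have hne' : σ ≠ τ := fun h => hne (Subtype.ext h)
      have e := hσ.2.trans hτ.2.symm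
      have e1 := congrArg Prod.fst e
      have e2 := congrArg Prod.snd e
      obtain ⟨x, y, h | h⟩ := hF hσ.1 hτ.1 hne'
      · exact Or.inl (railRung_of_dist hm e1 e2 h.1 h.2)
      · exact Or.inr (railRung_of_dist hm e1.symm e2.symm h.1 h.2))
    rw [Fintype.card_coe] at this
    exact le_A this
  · refine Nat.mul_le_mul_left _ ((Finset.card_le_univ _).trans ?_)
    simp [sq]

lemma A_pos (m : ℕ) : (0 : ℝ) < A m := by exact_mod_cast one_le_A m

lemma subadd : Subadditive (fun m => - Real.log (A m)) := by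
  intro m n
  have h : Real.log (A m) + Real.log (A n) ≤ Real.log (A (m + n)) := by
    rw [← Real.log_mul (A_pos m).ne' (A_pos n).ne']
    exact Real.log_le_log (mul_pos (A_pos m) (A_pos n)) (by exact_mod_cast A_mul m n)
  simp only
  linarith

lemma tendsto_log_A : ∃ l : ℝ, Tendsto (fun m : ℕ => Real.log (A m) / m) atTop (𝓝 l) := by
  have hb : BddBelow (Set.range fun m : ℕ => - Real.log (A m) / m) := by
    refine ⟨- Real.log 4, ?_⟩
    rintro _ ⟨m, rfl⟩
    have h4 : 0 ≤ Real.log 4 := Real.log_nonneg (by norm_num)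
    rcases Nat.eq_zero_or_pos m with rfl | hm
    · simpa using h4
    · have hm' : (0 : ℝ) < m := by exact_mod_cast hm
      have : Real.log (A m) ≤ m * Real.log 4 := by
        rw [← Real.log_pow]
        exact Real.log_le_log (A_pos m) (by exact_mod_cast A_le m)
      simp only
      rw [le_div_iff₀ hm']
      linarith
  refine ⟨- subadd.lim, ?_⟩
  have := (subadd.tendsto_lim hb).neg
  simpa [neg_div] using this

lemma tendsto_log_P : ∃ l : ℝ, Real.log 3 ≤ l ∧
    Tendsto (fun m : ℕ => Real.log (P (2 * m) (m + 1)) / m) atTop (𝓝 l) := by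
  obtain ⟨l, hl⟩ := tendsto_log_A
  have hcast : Tendsto (fun m : ℕ => (m : ℝ)) atTop atTop := tendsto_natCast_atTop_atTop
  refine ⟨l, ?_, ?_⟩
  · have h1 : Tendsto (fun m : ℕ => Real.log 3 - Real.log 3 / m) atTop (𝓝 (Real.log 3 - 0)) :=
      tendsto_const_nhds.sub (tendsto_const_nhds.div_atTop hcast)
    rw [sub_zero] at h1
    refine le_of_tendsto_of_tendsto h1 hl ?_
    filter_upwards [eventually_ge_atTop 1] with m hm
    obtain ⟨k, rfl⟩ : ∃ k, m = k + 1 := ⟨m - 1, by omega⟩
    have hk : (0 : ℝ) < ((k + 1 : ℕ) : ℝ) := by positivity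
    have : (k : ℝ) * Real.log 3 ≤ Real.log (A (k + 1)) := by
      rw [← Real.log_pow]
      exact Real.log_le_log (by positivity) (by exact_mod_cast three_pow_le_A k)
    rw [le_div_iff₀ hk, sub_mul, div_mul_cancel₀ _ hk.ne']
    push_cast
    linarith
  · have h0 : Tendsto (fun x : ℝ => Real.log x / x) atTop (𝓝 0) :=
      Real.isLittleO_log_id_atTop.tendsto_div_nhds_zero
    have h1 : Tendsto (fun m : ℕ => Real.log (A m) / m +
        4 * (Real.log (2 * (m : ℝ)) / (2 * (m : ℝ)))) atTop (𝓝 (l + 4 * 0)) :=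
      hl.add ((h0.comp (hcast.const_mul_atTop (by norm_num))).const_mul 4)
    rw [mul_zero, add_zero] at h1
    refine tendsto_of_tendsto_of_tendsto_of_le_of_le' hl h1 ?_ ?_
    · filter_upwards with m
      exact div_le_div_of_nonneg_right
        (Real.log_le_log (A_pos m) (by exact_mod_cast A_le_P m)) (Nat.cast_nonneg m)
    · filter_upwards [eventually_ge_atTop 2] with m hm
      have hm' : (0 : ℝ) < m := by exact_mod_cast (by omega : 0 < m)
      have hP : (0 : ℝ) < P (2 * m) (m + 1) :=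
        (A_pos m).trans_le (by exact_mod_cast A_le_P m)
      have h2 : Real.log (P (2 * m) (m + 1)) ≤ Real.log (A m) + 2 * Real.log (2 * (m : ℝ)) := by
        have : Real.log (A m) + 2 * Real.log (2 * (m : ℝ)) =
            Real.log (A m * (2 * (m : ℝ)) ^ 2) := by
          rw [Real.log_mul (A_pos m).ne' (by positivity), Real.log_pow]
          norm_num
        rw [this]
        exact Real.log_le_log hP (by exact_mod_cast P_le m hm)
      have h3 : Real.log (A m) / m + 4 * (Real.log (2 * (m : ℝ)) / (2 * (m : ℝ))) =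
          (Real.log (A m) + 2 * Real.log (2 * (m : ℝ))) / m := by
        field_simp
        ring
      rw [h3]
      exact div_le_div_of_nonneg_right h2 hm'.le

theorem main : ∃ L : ℝ, Real.sqrt 3 ≤ L ∧
    Tendsto (fun m : ℕ => (P (2 * m) (m + 1) : ℝ) ^ (1 / (2 * (m : ℝ)))) atTop (𝓝 L) := by
  obtain ⟨l, hl3, hl⟩ := tendsto_log_P
  refine ⟨Real.exp (l / 2), ?_, ?_⟩
  · rw [Real.sqrt_eq_rpow, Real.rpow_def_of_pos (by norm_num)]
    exact Real.exp_le_exp.2 (by linarith)
  · refine ((Real.continuous_exp.tendsto _).comp (hl.div_const 2)).congr fun m => ?_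
    have hP : (0 : ℝ) < P (2 * m) (m + 1) :=
      (A_pos m).trans_le (by exact_mod_cast A_le_P m)
    simp only [Function.comp]
    rw [Real.rpow_def_of_pos hP]
    congr 1
    ring

end Pool.Agent.MP_d5d631_co

end MrgPart1

-- marker of a merged file
example : 731051 + 604310 = 731051 + 604310 := rfl
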